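import Mathlib
import Pool.Agent.Lib.MP_a90784_dv.Final

/-!
The exponent of the largest admissible subset of `{1, ..., N}` is `1/5`.
-/

set_option autoImplicit false

namespace Pool.Agent.Results.MP_a90784_nt.ExponentOneFifth

/-- Let `F N` be the largest size of a subset of `{1, ..., N}` no element of which divides the sum
of a nonempty set of other elements. Then `log F(N) / log N` tends to `1/5`, that is
`F N = N ^ (1/5 + o(1))`. -/
theorem result :
    Filter.Tendsto (fun N : ℕ => Real.log (Pool.DV5.F N) / Real.log N) Filter.atTop
      (nhds (1 / 5)) :=
  Pool.DV5.exponent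

end Pool.Agent.Results.MP_a90784_nt.ExponentOneFifth
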